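import Pool.Agent.Results.MP_1bad5e_ag.RandomOrbits
import Pool.Agent.U569.APL.ExtA
import Pool.Agent.U569.APL.Lin

/-!
# MP_1bad5e_ag: the Tate conjecture at 2 in all the loci of elliptic surfaces of rank at least two given by
# `p = α q + β r`, over all number fields at the same time, for coefficients formed from arbitrary sets

The surfaces are those of the starting result `RandomOrbits`: `K` is a number field, `ω` a basis of its ring of integers,
`N ≥ 5` odd; the coordinates of the coefficients of two polynomials `q`, `r` of degree at most `N` over the ring of
integers form a vector `c` of integers; `k'` is a finite extension of `K` and `α`, `β`, `μ` are nonzero elements of `k'`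
with `((α + β)² - 1) ((α - β)² - 1) = μ²` (`Locus`), `p = α q + β r`, and `X` is the elliptic surface with the generic
fibre `y² = x (x - (p² - q²)) (x - (p² - r²))`, of geometric genus `N - 1`.

The vector `c` is good for `α`, `β` over `k'` (`GoodOver`) if `q` and `r` are coprime, the six polynomials `p ± q`,
`p ± r`, `q ± r` are irreducible over `k'` of degree `N`, and for every extension field `L` of `k'` such that for each element
of `L` which is algebraic over `k'` the Galois group of its minimal polynomial over `k'` is solvable (for example `L = k'`)
the Tate conjecture for divisors at the prime 2 holds for the surface over `L`, and `E(L(t))` contains two linearly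
independent points.

Let a sequence (`j = 0, 1, 2, …`) of families of vectors of coordinates (`R` of them) be given. The vectors of the `j`-th
family are `c₀ + y`, `c₀` an arbitrary integral vector (depending on `j`, of any size) and `y` one of the following vectors
(represented by `0, …, q - 1`):

* `y` in any family of vectors modulo some `q` (depending on `j`), whose nontrivial Fourier coefficients are at most
  `1 / (Z (42 + 3 log q) ^ R)`, where `Z → ∞`, `Z ≤ q`;
* `β(x, z) + u(x) + w(z)` modulo a prime `P → ∞`, where `β : k ^ m × k ^ n → k ^ R` is bilinear, the nontrivial
  combinations of its coordinates have rank at least `ρ`, `x` and `z` are in ARBITRARY sets `E` and `F` with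
  `|E| |F| ≥ P ^ (m + n - ρ + δ)`, `u` and `w` are arbitrary functions (for `δ > 0` fixed);
* the same for `β(x, z) = x z`, `x` and `z` in ARBITRARY subsets of the field of `P ^ R` elements,
  `|E| |F| ≥ P ^ (R + δ)`;
* polynomials in several variables of degree at most `P ^ (δ / 4)`, all nontrivial combinations of which have a monomial
  with at least two variables, plus arbitrary functions of the single variables, on products of ARBITRARY sets of at
  least `P ^ (1 / 2 + δ)` residues;
* polynomials in one variable of degree at most `P ^ (δ / 4)`, no nontrivial combination of which is constant, on any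
  subgroup of the multiplicative group modulo `P` with at least `P ^ (1 / 2 + δ)` elements.

**Theorem.** There are exceptions `E j`, `|E j| = o(size)`, such that for ALL finite extensions `k'` of `K` in an algebraic
closure and for ALL loci over `k'` (all `α`, `β`, `μ` in `k'` as above), for large `j` all the vectors `c` of the `j`-th
family outside of `E j` are good for `α`, `β` over `k'`.

New: the families of vectors. The exceptional sets are pronull by the starting results; few members of the families are in such a set by the theorem of the starting
library `N384.VF` on vectors of residues; the estimates of the Fourier coefficients on arbitrary sets are in `U569/APL`.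
-/

set_option autoImplicit false

namespace Pool.Agent.Results.MP_1bad5e_ag.ArbitrarySets

open NumberField Filter
open Pool.Agent.N24.RW (ProNull)
open Pool.Agent.Results.MP_1bad5e_ag.RandomOrbits (Idx GoodOver Locus)
open Pool.Agent.U569.APL

/-- **The Tate conjecture at 2 in all the loci, for coefficients formed from arbitrary sets.** -/
theorem result {K : Type} [Field K] [NumberField K] {J : Type} [Fintype J] (ω : Module.Basis J ℤ (𝓞 K)) {N : ℕ}
    (hN : 5 ≤ N) (hodd : Odd N) :
    (∀ (τ : ℕ → Type) (s : ∀ j, Finset (τ j)) (v : ∀ j, τ j → Idx N J → ℤ), FlatFamilies s v →
      ∃ B : ∀ j, Finset (τ j), Small s B ∧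
        ∀ E : IntermediateField K (AlgebraicClosure K), FiniteDimensional K E →
          ∀ α β μ : E, Locus E α β μ → Outside s B v fun c => GoodOver ω E α β c) ∧
    Examples (Idx N J) := by
  classical
  refine ⟨fun τ s v hs => ?_, examples _⟩
  obtain ⟨B, hB, h⟩ := flat_ext (K := K) hs (fun E [Field E] => E × E × E)
    (fun E [Field E] hE => by have := hE; exact inferInstance)
    (fun E [Field E] [Algebra K E] t c => Locus E t.1 t.2.1 t.2.2 → GoodOver ω E t.1 t.2.1 c)
    (fun E [Field E] [NumberField E] [Algebra K E] t => by
      by_cases hL : Locus E t.1 t.2.1 t.2.2
      · refine pn_mono ?_ ((Pool.Agent.Results.MP_1bad5e_ag.RandomOrbits.result ω hN hodd).1 E t.1 t.2.1 t.2.2 hL)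
        intro c hc hg
        exact hc fun _ => hg
      · refine pn_mono ?_ pn_empty
        intro c hc
        exact hc fun h => absurd h hL)
  refine ⟨B, hB, fun E hE α β μ hL => ?_⟩
  filter_upwards [h E hE (α, β, μ)] with j hj i hi hi2
  exact hj i hi hi2 hL

end Pool.Agent.Results.MP_1bad5e_ag.ArbitrarySets
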