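import Pool.Agent.U552.UD.M1b
import Pool.Agent.U552.UD.Fair

/-!
# MP_1bad5e_ag: the Tate conjecture at 2 in all the loci of elliptic surfaces of rank at least two given by `p = α q + β r`,
# along all fair sequences of coefficients, in particular the integral parts of real polynomials: one exceptional set for
# all degrees, number fields and loci

Let `K` be a number field, `ω` a basis of its ring of integers, `N ≥ 5` odd. The coordinates of the coefficients of two
polynomials `q`, `r` of degree at most `N` over the ring of integers form a vector of integers. Let `F` be a finite
extension of `K` and let `α`, `β`, `μ` be nonzero elements of `F` such that `((α + β)² - 1) ((α - β)² - 1) = μ²` (`Locus`).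
Put `p = α q + β r` and let `X` be the elliptic surface over the projective line with the generic fibre
`E : y² = x (x - (p² - q²)) (x - (p² - r²))`. The vector is good for `α`, `β` over `F` (`GoodOver`, starting result
`RandomOrbits`) if `q` and `r` are coprime, the six polynomials `p ± q`, `p ± r`, `q ± r` are irreducible over `F` of degree
`N`, and for every extension field `L` of `F` in which the elements algebraic over `F` have minimal polynomials with
solvable Galois groups the Tate conjecture for divisors at the prime 2 holds for the surface over `L`, and `E(L(t))`
contains two linearly independent points.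

**Theorem.** (1) Let the sequence `c_{n,0}, c_{n,1}, …`, `n = 0, 1, …`, of infinite integral vectors be `Fair`: for every finite set of
indices with `s` elements the proportion of the `n < N` with given residues of the `c_{n,l}` modulo `q` is at most
`C q ^ (-s) + o(1)`, where `C` depends on the set of indices only. There is ONE set `S` of natural numbers of density zero, depending only on the sequence and
`K`, such that for ALL odd `N ≥ 5`, all vectors `σ` of different indices, ALL finite extensions `F` of `K` in an algebraic
closure and ALL loci over `F` the vector `(c_{n,σ(i)})_i` is good for `α`, `β` over `F` for all but finitely many `n` outside `S`.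

(2) `c_{n,l} = ⌊x_l(n)⌋` is fair if the exponential means of all nontrivial rational combinations of the real sequences `x_l`
tend to zero (`UniformlyDistributed`).

(3) This is so for the values `x_l(n) = P_l(n)` of real polynomials if no nontrivial integral combination of finitely many of
them has only rational coefficients in positive degrees, for example for `x_l(n) = α_l n`, where `1, α_0, α_1, …` are
linearly independent over the rational numbers: the coefficients of `q`, `r` are the members of different Beatty sequences.

The starting file `EquidistributedSequences` has sequences which are exactly equidistributed in all residue classes of one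
modulus prime to given primes (in particular generalised polynomials with nonintegral leading exponents), for one `N`, one
vector of functions and without a common exceptional set; `RandomOrbits` has almost all random orbits. `Fair` needs only an
upper bound, with a constant which may depend on the set of the indices. Sequences of another kind (functions with given
orders of their differences) are in the file `FunctionsOfGivenOrder`.

Proof. The bad vectors form pronull sets (starting result `RandomOrbits`, theorem `pro`), and a fair sequence visits a
pronull set only at times of density zero; a diagonal argument gives one set. (2) The proportion of the `n` with given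
residues of the integral parts modulo `q` is estimated by products of Fejer kernels of length `q / 8` in the numbers
`x_l(n) / q` (`Pool.Agent.U552.UD`). (3) is Weyl's theorem (starting library).
-/

set_option autoImplicit false

namespace Pool.Agent.Results.MP_1bad5e_ag.FairSequences

open NumberField Filter Topology
open Pool.Agent.Results.MP_1bad5e_ag.RandomOrbits (Idx GoodOver Locus)

/-- `S` has density zero. -/
def Null (S : Set ℕ) : Prop :=
  Tendsto (fun N : ℕ => (({n : ℕ | n < N ∧ n ∈ S}.ncard : ℕ) : ℝ) / (N : ℝ)) atTop (𝓝 0)

/-- For every finite set of indices, with `s` elements, the proportion of the `n < N` with given residues of the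
`c n l` modulo `q` is at most `C q ^ (-s) + o(1)`, where `C` depends on the set only. -/
def Fair (c : ℕ → ℕ → ℤ) : Prop :=
  ∀ s : Finset ℕ, ∃ C : ℝ, ∀ q : ℕ, 0 < q → ∀ (a : ℕ → ℤ) (δ : ℝ), 0 < δ → ∃ N₀ : ℕ, ∀ N : ℕ, N₀ ≤ N →
    (({n : ℕ | n < N ∧ ∀ l ∈ s, (q : ℤ) ∣ c n l - a l}.ncard : ℕ) : ℝ) ≤ (C / (q : ℝ) ^ s.card + δ) * N

/-- The exponential means of all nontrivial rational combinations of the sequences `x 0, x 1, …` tend to zero. -/
def UniformlyDistributed (x : ℕ → ℕ → ℝ) : Prop :=
  ∀ (s : Finset ℕ) (h : ℕ → ℚ), (∃ l ∈ s, h l ≠ 0) →
    Tendsto (fun N : ℕ => (∑ n ∈ Finset.range N,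
      Complex.exp (2 * Real.pi * ((∑ l ∈ s, (h l : ℝ) * x l n : ℝ) : ℂ) * Complex.I)) / (N : ℂ)) atTop (𝓝 0)

/-- No nontrivial integral combination of finitely many of the polynomials has only rational coefficients in positive
degrees. -/
def Independent (P : ℕ → Polynomial ℝ) : Prop :=
  ∀ (s : Finset ℕ) (h : ℕ → ℤ), (∃ l ∈ s, h l ≠ 0) →
    ∃ j : ℕ, 1 ≤ j ∧ Irrational (∑ l ∈ s, (h l : ℝ) * (P l).coeff j)

/-- **The Tate conjecture at 2 in all the loci along fair sequences.** -/
theorem result :
    (∀ (K : Type) [Field K] [NumberField K] (J : Type) [Fintype J] (ω : Module.Basis J ℤ (𝓞 K)) (c : ℕ → ℕ → ℤ),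
      Fair c → ∃ S : Set ℕ, Null S ∧
        ∀ N : ℕ, 5 ≤ N → Odd N → ∀ σ : Idx N J → ℕ, Function.Injective σ →
          ∀ F : IntermediateField K (AlgebraicClosure K), FiniteDimensional K F →
            ∀ α β μ : F, Locus F α β μ → {n : ℕ | n ∉ S ∧ ¬ GoodOver ω F α β (fun i => c n (σ i))}.Finite) ∧
    (∀ x : ℕ → ℕ → ℝ, UniformlyDistributed x → Fair (fun n l => ⌊x l n⌋)) ∧
    ∀ P : ℕ → Polynomial ℝ, Independent P → UniformlyDistributed (fun l n => (P l).eval (n : ℝ)) :=
  ⟨fun _ _ _ _ _ ω c hc => Pool.Agent.U552.UD.M1b.main ω c fun ι _ σ hσ =>
      Pool.Agent.U552.UD.Fair.avoids hc ι σ hσ,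
    fun _ hx => Pool.Agent.U552.UD.fair_of_weyl hx,
    fun _ hP => Pool.Agent.U552.UD.weylFamily_of_poly hP⟩

end Pool.Agent.Results.MP_1bad5e_ag.FairSequences
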