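import Pool.Agent.U552.UD.M1b
import Pool.Agent.U552.UD.Ord

/-!
# The Tate conjecture at 2 in all the loci of elliptic surfaces of rank at least two given by `p = α q + β r`, for
# coefficients which are the integral parts of arbitrary functions of given orders: one exceptional set for all
# degrees, number fields and loci

Let `K` be a number field, `ω` a basis of its ring of integers, `N ≥ 5` odd. The coordinates of the coefficients of two
polynomials `q`, `r` of degree at most `N` over the ring of integers form a vector of integers. Let `F` be a finite
extension of `K` and let `α`, `β`, `μ` be nonzero elements of `F` such that `((α + β)² - 1) ((α - β)² - 1) = μ²` (`Locus`).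
Put `p = α q + β r` and let `X` be the elliptic surface over the projective line with the generic fibre
`E : y² = x (x - (p² - q²)) (x - (p² - r²))`. The vector is good for `α`, `β` over `F` (`GoodOver`, starting result
`RandomOrbits`) if `q` and `r` are coprime, the six polynomials `p ± q`, `p ± r`, `q ± r` are irreducible over `F` of degree
`N`, and for every extension field `L` of `F` in which the elements algebraic over `F` have minimal polynomials with
solvable Galois groups the Tate conjecture for divisors at the prime 2 holds for the surface over `L`, and `E(L(t))`
contains two linearly independent points.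

Let `f_0, f_1, f_2, …` be ARBITRARY functions of different orders `c_l > 0`: for some `d > c_l` (common for any finitely
many of them) the differences of order `d` of `f_l` have a constant sign and are `n ^ (c_l - d + o(1))` in absolute value.
There is no smoothness and no formula; examples are `n ^ c` with `c` not an integer, `n ^ j log n`, all functions of a Hardy
field with the same growth, plus arbitrary real polynomials of degree below `d`, and irregular functions.

**Theorem.** There is ONE set `S` of natural numbers of density zero, depending only on the `f_l` and `K`, such that for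
ALL odd `N ≥ 5`, all vectors `σ` of different indices, ALL finite extensions `F` of `K` in an algebraic closure and ALL
loci over `F` the vector `(⌊f_{σ(i)}(n)⌋)_i` is good for `α`, `β` over `F` for all but finitely many `n` outside `S`.

The starting file `EquidistributedSequences` has generalised polynomials with nonintegral leading exponents, for one `N`,
one vector of functions and without a common exceptional set.

Proof. The bad vectors form pronull sets (starting result `RandomOrbits`, theorem `pro`). The integral parts are jointly
equidistributed modulo all integers up to a power of `N` by a derivative test of order `d` for functions without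
smoothness (helper828, `Pool.Agent.U828.KD.order_well`), so a pronull set is visited only at times of density zero
(`Pool.Agent.U552.UD`); a diagonal argument gives one set.
-/

set_option autoImplicit false

namespace Pool.Agent.Results.MP_1bad5e_ag.FunctionsOfGivenOrder

open NumberField Filter Topology
open Pool.Agent.Results.MP_1bad5e_ag.RandomOrbits (Idx GoodOver Locus)

/-- The differences of order `d` of `f` have a constant sign and are `n ^ (c - d + o(1))` in absolute value. -/
def Order (d : ℕ) (c : ℝ) (f : ℕ → ℝ) : Prop :=
  ∀ ε : ℝ, 0 < ε → ∃ T : ℕ,
    (∀ n : ℕ, T ≤ n → (n : ℝ) ^ (c - d - ε) ≤ (fwdDiff 1)^[d] f n ∧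
      (fwdDiff 1)^[d] f n ≤ (n : ℝ) ^ (c - d + ε)) ∨
    (∀ n : ℕ, T ≤ n → (n : ℝ) ^ (c - d - ε) ≤ -(fwdDiff 1)^[d] f n ∧
      -(fwdDiff 1)^[d] f n ≤ (n : ℝ) ^ (c - d + ε))

/-- For every `k` the functions `f_0, …, f_k` have the orders `c_0, …, c_k`, with a common order of differences. -/
def Orders (c : ℕ → ℝ) (f : ℕ → ℕ → ℝ) : Prop :=
  ∀ k : ℕ, ∃ d : ℕ, 2 ≤ d ∧ ∀ l ≤ k, c l < d ∧ Order d (c l) (f l)

/-- `S` has density zero. -/
def Null (S : Set ℕ) : Prop :=
  Tendsto (fun N : ℕ => (({n : ℕ | n < N ∧ n ∈ S}.ncard : ℕ) : ℝ) / (N : ℝ)) atTop (𝓝 0)

/-- **The Tate conjecture at 2 in all the loci along arbitrary functions of given orders.** -/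
theorem result {K : Type} [Field K] [NumberField K] {J : Type} [Fintype J] (ω : Module.Basis J ℤ (𝓞 K))
    (c : ℕ → ℝ) (hc0 : ∀ l, 0 < c l) (hc : Function.Injective c) (f : ℕ → ℕ → ℝ) (hf : Orders c f) :
    ∃ S : Set ℕ, Null S ∧
      ∀ N : ℕ, 5 ≤ N → Odd N → ∀ σ : Idx N J → ℕ, Function.Injective σ →
        ∀ F : IntermediateField K (AlgebraicClosure K), FiniteDimensional K F →
          ∀ α β μ : F, Locus F α β μ → {n : ℕ | n ∉ S ∧ ¬ GoodOver ω F α β (fun i => ⌊f (σ i) n⌋)}.Finite := by
  classical
  exact Pool.Agent.U552.UD.M1b.main ω (fun n l => ⌊f l n⌋) fun _ _ σ hσ =>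
    Pool.Agent.U552.UD.order_avoids hc0 hc hf σ hσ

end Pool.Agent.Results.MP_1bad5e_ag.FunctionsOfGivenOrder
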