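import Pool.Agent.Results.MP_1bad5e_ag.RandomOrbits
import Pool.Agent.N24.RW.All
import Pool.Agent.U125.NO.Seq

/-!
# The Tate conjecture at 2 along every normal orbit of coefficients, in all the loci of elliptic surfaces of
# rank at least two given by `p = α q + β r`, over all number fields at the same time

The surfaces are those of the starting result `RandomOrbits`. Let `K` be a number field, `ω` a basis of its
ring of integers, `N ≥ 5` odd. The coordinates of the coefficients of two polynomials `q`, `r` of degree at
most `N` over the ring of integers form a vector `c` of integers (`Idx N J` is the set of its coordinates).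
Let `F` be a finite extension of `K` and let `α`, `β`, `μ` be nonzero elements of `F` such that
`((α + β)² - 1) ((α - β)² - 1) = μ²` (`Locus`). Put `p = α q + β r` and let `X` be the elliptic surface with the
generic fibre

`E : y² = x (x - (p² - q²)) (x - (p² - r²))`.

`GoodOver ω F α β c`: `q` and `r` are coprime, the six polynomials `p ± q`, `p ± r`, `q ± r` are irreducible over
`F` of degree `N`, and for EVERY extension field `L` of `F` such that for each element of `L` which is
algebraic over `F` the Galois group of its minimal polynomial over `F` is solvable (for example `L = F`; more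
generally if the elements of `L` which are algebraic over `F` are in a normal extension of `F` over which none of
the six polynomials splits into linear factors) the Tate conjecture for divisors at the prime 2 holds for the
surface over `L`, and `E(L(t))` contains two linearly independent points.

**Theorem.** Let `x_0, x_1, …` be a normal orbit in `ℤ^κ` (`NormalOrbit`): the orbit of an integral vector
under a finite family of integral affine maps along ANY normal sequence of indices, the family being wide
(for all `q` prime to some `q₀` the maps are bijective modulo `q`, and the vector can be moved to at least the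
proportion `ε > 0`, not depending on `q`, of all vectors modulo `q`). There is ONE set `E` of times of density
zero such that for ALL odd `N ≥ 5`, all injective choices of the coordinates of the orbit as coordinates of the
coefficients, ALL finite extensions `F` of `K` in an algebraic closure and ALL loci over `F` the vector at the
time `n` is good for all but finitely many `n ∉ E`.

Examples (second part): (1) `x_n = (⌊b ^ n ξ_l⌋)_l` for ANY vector `ξ` of real numbers which is normal to the
base `b ≥ 2`; (2) the orbit of any vector `v ≠ 0` along ANY normal word in matrices which generate the special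
linear group modulo all `q` prime to some `q₀` (generators of a thin group); (3) vectors of integers whose
digits are chosen from a restricted set of vectors.

The starting result `RandomOrbits` has the orbits of thin groups for ALMOST ALL words, with density zero for
each `F` and locus.

Proof. The exceptional sets are pronull (`RandomOrbits.pro`, starting library). Normal orbits visit a pronull
set only at times of density zero (engine `Pool.Agent.U125.NO` of helper125); there are countably many `N`,
`F` and loci.
-/

set_option autoImplicit false

namespace Pool.Agent.Results.MP_1bad5e_ag.NormalSequences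

open NumberField Filter Topology
open Pool.Agent.U125.NO (NormalOrbit Examples examples)
open Pool.Agent.Results.MP_1bad5e_ag.RandomOrbits (Idx GoodOver Locus pro)

/-- The set `E` of natural numbers has density zero. -/
def Null (E : Set ℕ) : Prop :=
  Tendsto (fun N : ℕ => (({m : ℕ | m < N ∧ m ∈ E}.ncard : ℕ) : ℝ) / (N : ℝ)) atTop (𝓝 0)

/-- Degrees, choices of coordinates, finite extensions and loci. -/
def Cond (K : Type) [Field K] (J κ : Type) : Type :=
  (Σ N : ℕ, {f : Idx N J → κ // 5 ≤ N ∧ Odd N ∧ Function.Injective f}) ×
  (Σ S : {S : Finset (AlgebraicClosure K) //
      FiniteDimensional K (IntermediateField.adjoin K (S : Set (AlgebraicClosure K)))},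
    {t : IntermediateField.adjoin K (S.1 : Set (AlgebraicClosure K)) ×
        IntermediateField.adjoin K (S.1 : Set (AlgebraicClosure K)) ×
        IntermediateField.adjoin K (S.1 : Set (AlgebraicClosure K)) //
      Locus (IntermediateField.adjoin K (S.1 : Set (AlgebraicClosure K))) t.1 t.2.1 t.2.2})

instance (K : Type) [Field K] [NumberField K] (J κ : Type) [Finite J] [Finite κ] :
    Countable (Cond K J κ) := by
  have := Pool.Agent.N140.RO.countable_algClosure K
  unfold Cond
  infer_instance

theorem result {K : Type} [Field K] [NumberField K] {J : Type} [Fintype J] [DecidableEq J]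
    (ω : Module.Basis J ℤ (𝓞 K)) (κ : Type) [Fintype κ] [DecidableEq κ] :
    (∀ x : ℕ → κ → ℤ, NormalOrbit x → ∃ E : Set ℕ, Null E ∧
      ∀ N : ℕ, 5 ≤ N → Odd N → ∀ f : Idx N J → κ, Function.Injective f →
        ∀ F : IntermediateField K (AlgebraicClosure K), FiniteDimensional K F →
          ∀ α β μ : F, Locus F α β μ →
            {n : ℕ | n ∉ E ∧ ¬ GoodOver ω F α β (fun q => x n (f q))}.Finite) ∧
    Examples κ := by
  refine ⟨?_, examples κ⟩
  intro x hx
  obtain ⟨E, hE1, hE2⟩ := hx.avoids.diag (K := Cond K J κ)
    (fun a y => ¬ GoodOver ω (IntermediateField.adjoin K (a.2.1.1 : Set (AlgebraicClosure K)))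
      a.2.2.1.1 a.2.2.1.2.1 (fun q => y (a.1.2.1 q)))
    (fun a => by
      obtain ⟨⟨N, f, hN, hodd, hf⟩, ⟨S, hfd⟩, ⟨α, β, μ⟩, hL⟩ := a
      have hnf : NumberField (IntermediateField.adjoin K (S : Set (AlgebraicClosure K))) := by
        have : CharZero (IntermediateField.adjoin K (S : Set (AlgebraicClosure K))) :=
          charZero_of_injective_algebraMap (algebraMap K _).injective
        have : FiniteDimensional ℚ (IntermediateField.adjoin K (S : Set (AlgebraicClosure K))) :=
          FiniteDimensional.trans ℚ K _
        exact ⟨⟩
      exact (Pool.Agent.N24.RW.clo (Idx N J)).2.2.2.2 κ f hf _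
        (pro ω hN hodd (IntermediateField.adjoin K (S : Set (AlgebraicClosure K))) hL))
  refine ⟨E, hE1, fun N hN hodd f hf F hF α β μ hL => ?_⟩
  obtain ⟨S, hS⟩ : F.FG := by
    refine IntermediateField.fg_of_fg_toSubalgebra F ?_
    rw [Subalgebra.fg_iff_finiteType]
    have : FiniteDimensional K F.toSubalgebra := hF
    infer_instance
  subst hS
  exact hE2 (⟨N, f, hN, hodd, hf⟩, ⟨⟨S, hF⟩, ⟨(α, β, μ), hL⟩⟩)

end Pool.Agent.Results.MP_1bad5e_ag.NormalSequences
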